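import Pool.Agent.REV.StmtsV3

set_option autoImplicit false

/-!
# Squad REV, row VD3: the derivative of `yb` for `n = 3` (copy of `Helper52_REV/VDR.lean`)
-/

namespace Pool.Agent.REV.H77V

open Set MeasureTheory Filter
open scoped Topology

lemma sq_pos' (b : ℝ) : 0 < 1 + b ^ 2 := by positivity

lemma cb_pos {b : ℝ} (hb : 0 < b) : 0 < cb b :=
  div_pos hb (Real.sqrt_pos.2 (sq_pos' b))

/-- The derivative of `cb`. -/
lemma hasDerivAt_cb (b : ℝ) : HasDerivAt cb (1 / Real.sqrt (1 + b ^ 2) ^ 3) b := by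
  have hs : 0 < Real.sqrt (1 + b ^ 2) := Real.sqrt_pos.2 (sq_pos' b)
  have hs2 : Real.sqrt (1 + b ^ 2) ^ 2 = 1 + b ^ 2 := Real.sq_sqrt (sq_pos' b).le
  have h1 : HasDerivAt (fun b : ℝ => 1 + b ^ 2) (2 * b) b := by
    have h := (hasDerivAt_pow 2 b).const_add (1 : ℝ)
    refine h.congr_deriv ?_
    norm_num
  have h2 : HasDerivAt (fun b : ℝ => Real.sqrt (1 + b ^ 2))
      (2 * b / (2 * Real.sqrt (1 + b ^ 2))) b := h1.sqrt (sq_pos' b).ne'
  have h3 := (hasDerivAt_id b).div h2 hs.ne'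
  have e : (fun b : ℝ => id b / Real.sqrt (1 + b ^ 2)) = cb := by
    funext b
    rfl
  have h4 : HasDerivAt cb ((1 * Real.sqrt (1 + b ^ 2) -
      id b * (2 * b / (2 * Real.sqrt (1 + b ^ 2)))) / Real.sqrt (1 + b ^ 2) ^ 2) b := h3
  refine h4.congr_deriv ?_
  simp only [id]
  set s : ℝ := Real.sqrt (1 + b ^ 2) with hsdef
  rw [div_eq_div_iff (pow_ne_zero 2 hs.ne') (pow_ne_zero 3 hs.ne')]
  have h5 : b * (2 * b / (2 * s)) * s = b ^ 2 := by
    field_simp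
  calc (1 * s - b * (2 * b / (2 * s))) * s ^ 3
      = (s ^ 2 - b * (2 * b / (2 * s)) * s) * s ^ 2 := by ring
    _ = (1 + b ^ 2 - b ^ 2) * s ^ 2 := by rw [h5, hs2]
    _ = 1 * s ^ 2 := by ring

lemma RA_nonneg (n : ℕ) {f : ℝ → ℝ} (hf : ∀ t, 0 ≤ f t) (c : ℝ) : 0 ≤ RA n f c := by
  refine intervalIntegral.integral_nonneg zero_le_one fun r hr => ?_
  have h : 0 ≤ 1 - r ^ 2 := by nlinarith [hr.1, hr.2]
  exact mul_nonneg (Real.rpow_nonneg h _) (hf _)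

lemma RB_nonneg (n : ℕ) {f : ℝ → ℝ} (hf : ∀ t, 0 ≤ f t) (c : ℝ) : 0 ≤ RB n f c := by
  refine intervalIntegral.integral_nonneg zero_le_one fun r hr => ?_
  have h : 0 ≤ 1 - r ^ 2 := by nlinarith [hr.1, hr.2]
  exact mul_nonneg (mul_nonneg (sq_nonneg r) (Real.rpow_nonneg h _)) (hf _)

/-- **VD3** -/
theorem vd3 (h1 : Yd3Stmt) (h2 : Rc3Stmt) : Vd3Stmt := by
  intro f hf
  have hbd : ∃ C, ∀ t, |f t| ≤ C := by
    obtain ⟨C, hC⟩ := hf.bdd
    refine ⟨C, fun t => ?_⟩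
    rw [abs_of_nonneg (hf.nonneg t)]
    exact hC t
  have e32 : (((3 : ℕ) : ℝ) - 2) = 1 := by norm_num
  have hy : ∀ b : ℝ, 0 < b → HasDerivAt (yb 3 f) (1 / b ^ 3 * zb 3 f b) b := by
    intro b hb
    have h3 := h1 f (cb b) hf.meas hbd (cb_pos hb)
    have h4 := h3.comp b (hasDerivAt_cb b)
    have h5 : HasDerivAt (yb 3 f)
        (RB 3 f (cb b) * (1 / Real.sqrt (1 + b ^ 2) ^ 3)) b := h4
    refine h5.congr_deriv ?_
    simp only [zb, cb]
    have hs : Real.sqrt (1 + b ^ 2) ≠ 0 := (Real.sqrt_pos.2 (sq_pos' b)).ne'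
    have hb' : b ≠ 0 := hb.ne'
    field_simp
  have hz0 : ∀ b : ℝ, 0 < b → 0 ≤ zb 3 f b := fun b hb =>
    mul_nonneg (pow_nonneg (cb_pos hb).le 3) (RB_nonneg 3 hf.nonneg _)
  have hy0 : ∀ b : ℝ, 0 < b → 0 ≤ yb 3 f b := fun b hb =>
    mul_nonneg (cb_pos hb).le (RA_nonneg 3 hf.nonneg _)
  have hdph : ∀ b : ℝ, dph 3 f b = 2 * yb 3 f b * (1 / b ^ 3 * zb 3 f b) := by
    intro b
    unfold dph
    rw [e32]
    norm_num
  have hd0 : ∀ b : ℝ, 0 < b → 0 ≤ dph 3 f b := by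
    intro b hb
    rw [hdph]
    exact mul_nonneg (mul_nonneg zero_le_two (hy0 b hb))
      (mul_nonneg (div_nonneg zero_le_one (pow_nonneg hb.le 3)) (hz0 b hb))
  have hzc : ContinuousOn (zb 3 f) (Ioi 0) := by
    intro b hb
    have hb' : (0 : ℝ) < b := hb
    have c1 : ContinuousAt cb b := (hasDerivAt_cb b).continuousAt
    have c2 : ContinuousAt (RB 3 f) (cb b) := h2 f (cb b) hf.meas hbd (cb_pos hb')
    have c3 : ContinuousAt (fun b => RB 3 f (cb b)) b := ContinuousAt.comp c2 c1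
    exact ((c1.pow 3).mul c3).continuousWithinAt
  refine ⟨fun b hb => ⟨hy b hb, ?_, hz0 b hb, hd0 b hb⟩, hzc, ?_⟩
  · have h3 := (hy b hb).pow 2
    have h4 : HasDerivAt (ph 3 f) (((2 : ℕ) : ℝ) * yb 3 f b ^ (2 - 1) *
        (1 / b ^ 3 * zb 3 f b)) b := h3
    refine h4.congr_deriv ?_
    rw [hdph]
    norm_num
  · have hyc : ContinuousOn (yb 3 f) (Ioi 0) := fun b hb =>
      (hy b hb).continuousAt.continuousWithinAt
    have c1 : ContinuousOn (fun b : ℝ => (1 : ℝ) / b ^ 3) (Ioi 0) :=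
      continuousOn_const.div (continuousOn_id.pow 3) fun b hb => pow_ne_zero 3 (ne_of_gt hb)
    have c2 : ContinuousOn (fun b : ℝ => 2 * yb 3 f b * (1 / b ^ 3 * zb 3 f b)) (Ioi 0) :=
      (continuousOn_const.mul hyc).mul (c1.mul hzc)
    exact c2.congr fun b _ => hdph b

end Pool.Agent.REV.H77V
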