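import Pool.Agent.REV.StmtsG4
import Pool.Agent.Helper65_REV.A13All

set_option autoImplicit false

/-!
# REV, row CPO3: the constants (copy of `Helper80_REV/CPO.lean` for `3 ≤ n`)
-/

namespace Pool.Agent.REV.H77

open Set MeasureTheory

/-- **CPO3** -/
theorem cpo3 : Cpo3Stmt := by
  intro n i hn hi hin
  have hn' : (3 : ℝ) ≤ n := by exact_mod_cast hn
  have h2 : (0 : ℝ) < (n : ℝ) - 2 := by linarith
  refine ⟨?_, ?_, ?_, ?_⟩
  · intro h
    unfold C1
    have hd : 0 < (n - 2).descFactorial i := Nat.descFactorial_pos.2 (by omega)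
    have hd' : (0 : ℝ) < ((n - 2).descFactorial i : ℝ) := by exact_mod_cast hd
    exact div_pos hd' (pow_pos h2 i)
  · unfold C1
    exact div_nonneg (Nat.cast_nonneg _) (pow_nonneg h2.le i)
  · unfold C2
    have hd : 0 < (n - 2).descFactorial (i - 1) := Nat.descFactorial_pos.2 (by omega)
    have hd' : (0 : ℝ) < ((n - 2).descFactorial (i - 1) : ℝ) := by exact_mod_cast hd
    have hi' : (0 : ℝ) < (i : ℝ) := by exact_mod_cast hi
    exact div_pos (mul_pos hi' hd') (pow_pos h2 _)
  · unfold kap
    apply inv_pos.2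
    have hint : IntervalIntegrable (fun x : ℝ => (1 - x ^ 2) ^ (((n : ℝ) - 4) / 2)) volume 0 1 :=
      (Pool.Agent.REV.H65.int3All n hn).2.2.1
    apply intervalIntegral.intervalIntegral_pos_of_pos_on hint _ zero_lt_one
    intro x hx
    apply Real.rpow_pos_of_pos
    have h1 := hx.1
    have h2' := hx.2
    nlinarith

end Pool.Agent.REV.H77
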