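import Pool.Agent.REV.StmtsU

set_option autoImplicit false

/-!
# REV, row YDR: the derivative of `c RA(c)`
-/

open MeasureTheory Set Filter
open scoped Topology

namespace Pool.Agent.REV.H77

open Pool.Agent.REV

/-- **YDR** -/
theorem ydr (mxl : MxlStmt) (cra : CraStmt) : YdrStmt := by
  intro n f c hn hf hb hc
  obtain ⟨C, hC⟩ := hb
  have hC0 : 0 ≤ C := (abs_nonneg _).trans (hC 0)
  obtain ⟨⟨L, hL, hlip⟩, hder⟩ := mxl n c hn hc
  have hn4 : (4 : ℝ) ≤ n := by exact_mod_cast hn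
  have hβ : 0 ≤ ((n : ℝ) - 2) / 2 := by linarith
  have hcm : (0 : ℝ) ≤ 2 * c := by linarith
  have hevent : ∀ᶠ u in 𝓝 c, u * RA n f u =
      ∫ s in (0 : ℝ)..2 * c, max (1 - s ^ 2 / u ^ 2) 0 ^ (((n : ℝ) - 2) / 2) * f s := by
    filter_upwards [Ioo_mem_nhds (show c / 2 < c by linarith) (show c < 2 * c by linarith)]
      with u hu
    exact (cra n f u (2 * c) hn hf ⟨C, hC⟩ (by linarith [hu.1]) hu.2.le).1
  have hmF : ∀ u : ℝ, Measurable fun s : ℝ =>
      max (1 - s ^ 2 / u ^ 2) 0 ^ (((n : ℝ) - 2) / 2) * f s := by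
    intro u
    refine Measurable.mul ?_ hf
    refine Measurable.pow_const ?_ _
    exact (measurable_const.sub ((measurable_id.pow_const 2).div_const _)).max measurable_const
  have hmF' : Measurable fun s : ℝ =>
      (if s < c then ((n : ℝ) - 2) / c ^ 3 * (s ^ 2 * (1 - s ^ 2 / c ^ 2) ^ (((n : ℝ) - 4) / 2))
          else 0) * f s := by
    refine Measurable.mul ?_ hf
    refine Measurable.ite (measurableSet_lt measurable_id measurable_const) ?_ measurable_const
    refine measurable_const.mul ((measurable_id.pow_const 2).mul ?_)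
    exact Measurable.pow_const (measurable_const.sub ((measurable_id.pow_const 2).div_const _)) _
  have hFint : IntervalIntegrable (fun s : ℝ =>
      max (1 - s ^ 2 / c ^ 2) 0 ^ (((n : ℝ) - 2) / 2) * f s) volume 0 (2 * c) := by
    refine (intervalIntegrable_const (c := C)).mono_fun' (hmF c).aestronglyMeasurable
      (Filter.Eventually.of_forall fun s => ?_)
    change ‖max (1 - s ^ 2 / c ^ 2) 0 ^ (((n : ℝ) - 2) / 2) * f s‖ ≤ C
    rw [norm_mul, Real.norm_eq_abs, Real.norm_eq_abs]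
    have h0 : (0 : ℝ) ≤ max (1 - s ^ 2 / c ^ 2) 0 := le_max_right _ _
    have h1 : max (1 - s ^ 2 / c ^ 2) 0 ≤ 1 := by
      refine max_le ?_ zero_le_one
      have : 0 ≤ s ^ 2 / c ^ 2 := by positivity
      linarith
    rw [abs_of_nonneg (Real.rpow_nonneg h0 _)]
    calc max (1 - s ^ 2 / c ^ 2) 0 ^ (((n : ℝ) - 2) / 2) * |f s| ≤ 1 * C :=
          mul_le_mul (Real.rpow_le_one h0 h1 hβ) (hC s) (abs_nonneg _) zero_le_one
      _ = C := one_mul C
  have hmain := intervalIntegral.hasDerivAt_integral_of_dominated_loc_of_lip (μ := volume)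
    (a := 0) (b := 2 * c) (x₀ := c) (s := Ici (c / 2)) (bound := fun _ => L * C)
    (F := fun u s => max (1 - s ^ 2 / u ^ 2) 0 ^ (((n : ℝ) - 2) / 2) * f s)
    (F' := fun s => (if s < c then ((n : ℝ) - 2) / c ^ 3 *
      (s ^ 2 * (1 - s ^ 2 / c ^ 2) ^ (((n : ℝ) - 4) / 2)) else 0) * f s)
    (Ici_mem_nhds (by linarith))
    (Filter.Eventually.of_forall fun u => (hmF u).aestronglyMeasurable) hFint
    hmF'.aestronglyMeasurable
    (Filter.Eventually.of_forall fun t ht => by
      rw [uIoc_of_le hcm] at ht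
      refine LipschitzOnWith.of_dist_le_mul fun x hx y hy => ?_
      rw [Real.coe_nnabs, abs_of_nonneg (mul_nonneg hL hC0), Real.dist_eq, Real.dist_eq,
        ← sub_mul, abs_mul]
      have h1 := hlip t x y ht.1.le ht.2 hx hy
      calc _ ≤ L * |x - y| * C :=
            mul_le_mul h1 (hC t) (abs_nonneg _) (mul_nonneg hL (abs_nonneg _))
        _ = L * C * |x - y| := by ring)
    intervalIntegrable_const
    (by
      have hne : ∀ᵐ t ∂(volume : Measure ℝ), t ≠ c := by
        rw [ae_iff]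
        simp
      filter_upwards [hne] with t ht ht'
      rw [uIoc_of_le hcm] at ht'
      exact (hder t ht'.1.le ht).mul_const (f t))
  have hval : (∫ s in (0 : ℝ)..2 * c, (if s < c then ((n : ℝ) - 2) / c ^ 3 *
      (s ^ 2 * (1 - s ^ 2 / c ^ 2) ^ (((n : ℝ) - 4) / 2)) else 0) * f s) =
      ((n : ℝ) - 2) * RB n f c := by
    have h1 := (cra n f c (2 * c) hn hf ⟨C, hC⟩ hc (by linarith)).2
    have h2 : (∫ s in (0 : ℝ)..2 * c, (if s < c then ((n : ℝ) - 2) / c ^ 3 *
        (s ^ 2 * (1 - s ^ 2 / c ^ 2) ^ (((n : ℝ) - 4) / 2)) else 0) * f s) =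
        ∫ s in (0 : ℝ)..2 * c, ((n : ℝ) - 2) / c ^ 3 *
        ((if s < c then s ^ 2 * (1 - s ^ 2 / c ^ 2) ^ (((n : ℝ) - 4) / 2) else 0) * f s) := by
      refine intervalIntegral.integral_congr fun s _ => ?_
      split_ifs
      · ring
      · ring
    rw [h2, intervalIntegral.integral_const_mul, ← h1]
    have hc3 : c ^ 3 ≠ 0 := by positivity
    field_simp
  have hd := hmain.2
  rw [hval] at hd
  exact hd.congr_of_eventuallyEq hevent

end Pool.Agent.REV.H77
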