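import Pool.Agent.REV.StmtsV

set_option autoImplicit false

/-!
# REV, row VKU: upper bound of the double step
-/

open MeasureTheory Set Filter
open scoped Topology

namespace Pool.Agent.REV.H77

open Pool.Agent.REV

theorem vku_ind (g : ℝ → ℝ) (hg : ContinuousOn g (Ioi 0)) :
    Measurable ((Ioi (0 : ℝ)).indicator g) := by
  classical
  rw [← piecewise_eq_indicator]
  exact hg.measurable_piecewise continuousOn_const measurableSet_Ioi

/-- the inner integral -/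
theorem vku_inner (n : ℕ) (hn : 4 ≤ n) (x : ℝ) (hx : 0 ≤ x) :
    0 ≤ (∫ u in Ioo (0 : ℝ) (min 1 x), 1 * (1 - u ^ 2) ^ (((n : ℝ) - 4) / 2)) ∧
    (∫ u in Ioo (0 : ℝ) (min 1 x), 1 * (1 - u ^ 2) ^ (((n : ℝ) - 4) / 2)) ≤ min (J0 n) x := by
  have hn4 : (4 : ℝ) ≤ n := by exact_mod_cast hn
  have hμ : 0 ≤ ((n : ℝ) - 4) / 2 := by linarith
  simp only [one_mul]
  have h01 : ∀ u ∈ Icc (0 : ℝ) 1, 0 ≤ 1 - u ^ 2 ∧ 1 - u ^ 2 ≤ 1 := by
    intro u hu
    constructor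
    · nlinarith [hu.1, hu.2]
    · nlinarith [sq_nonneg u]
  have hb : ∀ u ∈ Icc (0 : ℝ) 1, 0 ≤ (1 - u ^ 2) ^ (((n : ℝ) - 4) / 2) ∧
      (1 - u ^ 2) ^ (((n : ℝ) - 4) / 2) ≤ 1 := fun u hu =>
    ⟨Real.rpow_nonneg (h01 u hu).1 _, Real.rpow_le_one (h01 u hu).1 (h01 u hu).2 hμ⟩
  have hmeas : Measurable fun u : ℝ => (1 - u ^ 2) ^ (((n : ℝ) - 4) / 2) :=
    Measurable.pow_const (measurable_const.sub (measurable_id.pow_const 2)) _
  have hint : IntegrableOn (fun u : ℝ => (1 - u ^ 2) ^ (((n : ℝ) - 4) / 2)) (Ioc 0 1) := by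
    refine Measure.integrableOn_of_bounded (M := 1) (by simp) hmeas.aestronglyMeasurable ?_
    filter_upwards [ae_restrict_mem measurableSet_Ioc] with u hu
    have h := hb u ⟨hu.1.le, hu.2⟩
    rw [Real.norm_eq_abs, abs_of_nonneg h.1]
    exact h.2
  have hsub : Ioo (0 : ℝ) (min 1 x) ⊆ Ioc 0 1 := fun u hu =>
    ⟨hu.1, hu.2.le.trans (min_le_left _ _)⟩
  refine ⟨?_, le_min ?_ ?_⟩
  · exact setIntegral_nonneg measurableSet_Ioo fun u hu =>
      (hb u ⟨(hsub hu).1.le, (hsub hu).2⟩).1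
  · unfold J0
    rw [intervalIntegral.integral_of_le zero_le_one]
    refine setIntegral_mono_set hint ?_ (Filter.Eventually.of_forall hsub)
    filter_upwards [ae_restrict_mem measurableSet_Ioc] with u hu
    exact (hb u ⟨hu.1.le, hu.2⟩).1
  · calc (∫ u in Ioo (0 : ℝ) (min 1 x), (1 - u ^ 2) ^ (((n : ℝ) - 4) / 2))
        ≤ ∫ _ in Ioo (0 : ℝ) (min 1 x), (1 : ℝ) := by
          refine setIntegral_mono_on (hint.mono_set hsub) (by simp) measurableSet_Ioo
            fun u hu => (hb u ⟨(hsub hu).1.le, (hsub hu).2⟩).2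
      _ = min 1 x := by
          rw [setIntegral_const, smul_eq_mul, mul_one, measureReal_def, Real.volume_Ioo, sub_zero,
            ENNReal.toReal_ofReal (le_min zero_le_one hx)]
      _ ≤ x := min_le_right _ _

theorem vku_J0 (n : ℕ) (hn : 4 ≤ n) : 0 ≤ J0 n := by
  have h := vku_inner n hn 1 zero_le_one
  exact h.1.trans (h.2.trans (min_le_left _ _))

/-- **VKU** -/
theorem vku (vdr : VdrStmt) (vlm : VlmStmt) (vne : VneStmt) (vsw : VswStmt) : VkuStmt := by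
  intro n C σ0 σ1 f0 f1 f2 hn hC hσ0 hσ1 hf0 hf1 hf2 h01 h12 b hb
  have hn4 : (4 : ℝ) ≤ n := by exact_mod_cast hn
  have hm : 0 ≤ ((n : ℝ) - 2) / 2 := by linarith
  have hc3 : 0 < c3 n C := by
    unfold c3
    exact div_pos hC (mul_pos (by linarith) (by linarith))
  obtain ⟨hd0, -, hcont0⟩ := vdr n f0 hn hf0
  obtain ⟨hd1, -, -⟩ := vdr n f1 hn hf1
  obtain ⟨-, -, -, -, -, -, hint0, -, -⟩ := vlm n f0 hn hf0
  obtain ⟨-, -, hR1, hy1, -, -, -, -, -⟩ := vlm n f1 hn hf1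
  obtain ⟨hne0, -⟩ := vne n C σ0 f0 f1 hn hC.le hσ0.le hf0 hf1 h01
  obtain ⟨hne1, -⟩ := vne n C σ1 f1 f2 hn hC.le hσ1.le hf1 hf2 h12
  obtain ⟨-, hyb, -, -⟩ := hne1 b hb
  have hDeq : ∀ β ∈ Ioi (0 : ℝ), (Ioi (0 : ℝ)).indicator (dph n f0) β = dph n f0 β :=
    fun β hβ => indicator_of_mem hβ _
  have hDint : IntegrableOn ((Ioi (0 : ℝ)).indicator (dph n f0)) (Ioi 0) :=
    (integrableOn_congr_fun hDeq measurableSet_Ioi).2 hint0
  obtain ⟨hsi, hse⟩ := vsw n b 1 ((Ioi (0 : ℝ)).indicator (dph n f0)) (fun _ => 1) hn hb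
    (vku_ind _ hcont0) measurable_const
    (fun β hβ => by
      rw [hDeq β hβ]
      exact (hd0 β hβ).2.2.2) hDint (fun s _ => ⟨zero_le_one, le_refl _⟩)
  have hb1 : 0 < 1 / b := by positivity
  -- the inner function is `zb f1`
  have hz : ∀ s ∈ Ioi (1 / b), σ0 * c3 n C * ((s ^ 2)⁻¹ * 1 *
      ∫ β in Ioi (1 / s), wb s β ^ (((n : ℝ) - 4) / 2) *
        (β⁻¹ * (Ioi (0 : ℝ)).indicator (dph n f0) β)) = (s ^ 2)⁻¹ * zb n f1 s := by
    intro s hs
    have hs0 : 0 < s := hb1.trans hs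
    obtain ⟨-, -, -, h4⟩ := hne0 s hs0
    have h5 : (∫ β in Ioi (1 / s), wb s β ^ (((n : ℝ) - 4) / 2) *
        (β⁻¹ * (Ioi (0 : ℝ)).indicator (dph n f0) β)) =
        ∫ β in Ioi (1 / s), wb s β ^ (((n : ℝ) - 4) / 2) * (β⁻¹ * dph n f0 β) := by
      refine setIntegral_congr_fun measurableSet_Ioi fun β hβ => ?_
      have h1s : 0 < 1 / s := by positivity
      have hβ0 : β ∈ Ioi (0 : ℝ) := h1s.trans hβ
      change wb s β ^ (((n : ℝ) - 4) / 2) * (β⁻¹ * (Ioi (0 : ℝ)).indicator (dph n f0) β) =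
        wb s β ^ (((n : ℝ) - 4) / 2) * (β⁻¹ * dph n f0 β)
      rw [hDeq β hβ0]
    rw [h5, h4]
    ring
  set K : ℝ := ((n : ℝ) - 1) * ((n : ℝ) - 2) * RA n f1 1 ^ (n - 2) * (σ0 * c3 n C) with hK
  have hK0 : 0 ≤ K := by
    rw [hK]
    have h1 : (0 : ℝ) ≤ (n : ℝ) - 1 := by linarith
    have h2 : (0 : ℝ) ≤ (n : ℝ) - 2 := by linarith
    positivity
  have step1 : (∫ β in Ioi (1 / b), wb b β ^ (((n : ℝ) - 2) / 2) * (β * dph n f1 β)) ≤
      ∫ s in Ioi (1 / b), K * ((s ^ 2)⁻¹ * 1 *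
      ∫ β in Ioi (1 / s), wb s β ^ (((n : ℝ) - 4) / 2) *
        (β⁻¹ * (Ioi (0 : ℝ)).indicator (dph n f0) β)) := by
    have hpt : ∀ s ∈ Ioi (1 / b), 0 ≤ wb b s ^ (((n : ℝ) - 2) / 2) * (s * dph n f1 s) ∧
        wb b s ^ (((n : ℝ) - 2) / 2) * (s * dph n f1 s) ≤ K * ((s ^ 2)⁻¹ * 1 *
        ∫ β in Ioi (1 / s), wb s β ^ (((n : ℝ) - 4) / 2) *
        (β⁻¹ * (Ioi (0 : ℝ)).indicator (dph n f0) β)) := by
      intro s hs
      have hs0 : 0 < s := hb1.trans hs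
      have hbs : 1 < b * s := by
        have h1 : 1 / b < s := hs
        rw [div_lt_iff₀ hb] at h1
        linarith
      have hbs2 : 1 ≤ (b * s) ^ 2 := by nlinarith
      have hw0 : 0 ≤ wb b s := by
        unfold wb
        have := inv_le_one_of_one_le₀ hbs2
        linarith
      have hw1 : wb b s ≤ 1 := by
        unfold wb
        have : 0 ≤ ((b * s) ^ 2)⁻¹ := by positivity
        linarith
      have hw2 : wb b s ^ (((n : ℝ) - 2) / 2) ≤ 1 := Real.rpow_le_one hw0 hw1 hm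
      have hw3 : 0 ≤ wb b s ^ (((n : ℝ) - 2) / 2) := Real.rpow_nonneg hw0 _
      obtain ⟨-, -, hz0, hdp⟩ := hd1 s hs0
      obtain ⟨hy0, hyR⟩ := hy1 s hs0.le
      refine ⟨mul_nonneg hw3 (mul_nonneg hs0.le hdp), ?_⟩
      have hzz := hz s hs
      have e2 : K * ((s ^ 2)⁻¹ * 1 *
          ∫ β in Ioi (1 / s), wb s β ^ (((n : ℝ) - 4) / 2) *
          (β⁻¹ * (Ioi (0 : ℝ)).indicator (dph n f0) β)) =
          ((n : ℝ) - 1) * ((n : ℝ) - 2) * RA n f1 1 ^ (n - 2) * ((s ^ 2)⁻¹ * zb n f1 s) := by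
        rw [← hzz, hK]
        ring
      rw [e2]
      have e3 : s * dph n f1 s = ((n : ℝ) - 1) * ((n : ℝ) - 2) * yb n f1 s ^ (n - 2) *
          ((s ^ 2)⁻¹ * zb n f1 s) := by
        unfold dph
        field_simp
      have hp : yb n f1 s ^ (n - 2) ≤ RA n f1 1 ^ (n - 2) := pow_le_pow_left₀ hy0 hyR _
      have hnn : 0 ≤ ((n : ℝ) - 1) * ((n : ℝ) - 2) := mul_nonneg (by linarith) (by linarith)
      calc wb b s ^ (((n : ℝ) - 2) / 2) * (s * dph n f1 s) ≤ 1 * (s * dph n f1 s) :=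
            mul_le_mul_of_nonneg_right hw2 (mul_nonneg hs0.le hdp)
        _ = ((n : ℝ) - 1) * ((n : ℝ) - 2) * yb n f1 s ^ (n - 2) * ((s ^ 2)⁻¹ * zb n f1 s) := by
            rw [one_mul, e3]
        _ ≤ ((n : ℝ) - 1) * ((n : ℝ) - 2) * RA n f1 1 ^ (n - 2) * ((s ^ 2)⁻¹ * zb n f1 s) :=
            mul_le_mul_of_nonneg_right (mul_le_mul_of_nonneg_left hp hnn) (by positivity)
    refine integral_mono_of_nonneg ?_ (hsi.const_mul K) ?_
    · filter_upwards [ae_restrict_mem measurableSet_Ioi] with s hs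
      exact (hpt s hs).1
    · filter_upwards [ae_restrict_mem measurableSet_Ioi] with s hs
      exact (hpt s hs).2
  rw [integral_const_mul, hse] at step1
  have step2 : (∫ β in Ioi (0 : ℝ), (Ioi (0 : ℝ)).indicator (dph n f0) β *
      ∫ u in Ioo (0 : ℝ) (min 1 (b / β)), 1 * (1 - u ^ 2) ^ (((n : ℝ) - 4) / 2)) ≤
      ∫ β in Ioi (0 : ℝ), min (J0 n) (b / β) * dph n f0 β := by
    refine integral_mono_of_nonneg ?_ ?_ ?_
    · filter_upwards [ae_restrict_mem measurableSet_Ioi] with β hβ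
      have hβ0 : (0 : ℝ) < β := hβ
      refine mul_nonneg ?_ (vku_inner n hn (b / β) (by positivity)).1
      rw [hDeq β hβ]
      exact (hd0 β hβ).2.2.2
    · refine Integrable.bdd_mul (c := J0 n) hint0 ?_ ?_
      · exact (measurable_const.min (measurable_const.div measurable_id)).aestronglyMeasurable
      · filter_upwards [ae_restrict_mem measurableSet_Ioi] with β hβ
        have hβ0 : (0 : ℝ) < β := hβ
        have h1 : 0 ≤ min (J0 n) (b / β) := le_min (vku_J0 n hn) (by positivity)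
        rw [Real.norm_eq_abs, abs_of_nonneg h1]
        exact min_le_left _ _
    · filter_upwards [ae_restrict_mem measurableSet_Ioi] with β hβ
      have hβ0 : (0 : ℝ) < β := hβ
      rw [hDeq β hβ, mul_comm]
      exact mul_le_mul_of_nonneg_right (vku_inner n hn (b / β) (by positivity)).2
        (hd0 β hβ).2.2.2
  rw [hyb]
  calc σ1 * c3 n C * ∫ β in Ioi (1 / b), wb b β ^ (((n : ℝ) - 2) / 2) * (β * dph n f1 β)
      ≤ σ1 * c3 n C * (K * ∫ β in Ioi (0 : ℝ), min (J0 n) (b / β) * dph n f0 β) :=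
        mul_le_mul_of_nonneg_left (step1.trans (mul_le_mul_of_nonneg_left step2 hK0))
          (by positivity)
    _ = σ0 * σ1 * C * c3 n C * RA n f1 1 ^ (n - 2) *
        ∫ β in Ioi (0 : ℝ), min (J0 n) (b / β) * dph n f0 β := by
        have hcc : c3 n C * (((n : ℝ) - 1) * ((n : ℝ) - 2)) = C := by
          unfold c3
          have h1 : (n : ℝ) - 1 ≠ 0 := by linarith
          have h2 : (n : ℝ) - 2 ≠ 0 := by linarith
          field_simp
        generalize ∫ β in Ioi (0 : ℝ), min (J0 n) (b / β) * dph n f0 β = J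
        rw [hK]
        calc σ1 * c3 n C * (((n : ℝ) - 1) * ((n : ℝ) - 2) * RA n f1 1 ^ (n - 2) *
              (σ0 * c3 n C) * J) =
              (c3 n C * (((n : ℝ) - 1) * ((n : ℝ) - 2))) * (σ0 * σ1 * c3 n C *
                RA n f1 1 ^ (n - 2) * J) := by ring
          _ = σ0 * σ1 * C * c3 n C * RA n f1 1 ^ (n - 2) * J := by
              rw [hcc]
              ring

end Pool.Agent.REV.H77
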