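import Pool.Agent.REV.StmtsG

set_option autoImplicit false

/-!
# REV, row RLW: comparison of the sphere of the complement of a vector and of the whole space
-/

open MeasureTheory Module Set Filter
open scoped RealInnerProductSpace Pointwise Topology ENNReal

namespace Pool.Agent.REV.H77

open Pool.Agent.REV
open Pool.Agent.BPH Pool.Agent.Helper55_PB Pool.Agent.Helper28_PB

theorem rlw_pos (E : Type) [NormedAddCommGroup E] [InnerProductSpace ℝ E] [FiniteDimensional ℝ E]
    [MeasurableSpace E] [BorelSpace E] : 0 < (volume (Metric.ball (0 : E) 1)).toReal :=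
  ENNReal.toReal_pos (Metric.measure_ball_pos _ _ one_pos).ne' measure_ball_lt_top.ne

theorem rlw_core (rad : RadStmt) (rle : RleStmt) (E U V W X : Type)
    [NormedAddCommGroup E] [InnerProductSpace ℝ E] [FiniteDimensional ℝ E]
    [MeasurableSpace E] [BorelSpace E] [Nontrivial E]
    [NormedAddCommGroup U] [InnerProductSpace ℝ U] [FiniteDimensional ℝ U]
    [MeasurableSpace U] [BorelSpace U] [Nontrivial U]
    [NormedAddCommGroup V] [InnerProductSpace ℝ V] [FiniteDimensional ℝ V]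
    [MeasurableSpace V] [BorelSpace V]
    [NormedAddCommGroup W] [InnerProductSpace ℝ W] [FiniteDimensional ℝ W]
    [MeasurableSpace W] [BorelSpace W] [Nontrivial W]
    [NormedAddCommGroup X] [InnerProductSpace ℝ X] [FiniteDimensional ℝ X]
    [MeasurableSpace X] [BorelSpace X] [Nontrivial X]
    (A : U →ₗᵢ[ℝ] E) (B : V →ₗᵢ[ℝ] E) (hAB : ∀ y z, ⟪A y, B z⟫ = 0)
    (hd : finrank ℝ U + finrank ℝ V = finrank ℝ E)
    (A' : X →ₗᵢ[ℝ] W) (B' : V →ₗᵢ[ℝ] W) (hAB' : ∀ y z, ⟪A' y, B' z⟫ = 0)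
    (hd' : finrank ℝ X + finrank ℝ V = finrank ℝ W) (hk : finrank ℝ U = finrank ℝ X + 1) :
    ∃ c : ℝ, 0 < c ∧ ∀ (Ψ : E → ℝ) (F : W → ℝ) (Γ : ℝ × V → ℝ), Tst Ψ → Tst F → BM Γ →
      (∀ y z, ‖y‖ ^ 2 + ‖z‖ ^ 2 = 1 → Ψ (A y + B z) = Γ (‖y‖, z)) →
      (∀ y z, ‖y‖ ^ 2 + ‖z‖ ^ 2 = 1 → F (A' y + B' z) = ‖y‖ * Γ (‖y‖, z)) →
      ∫ x, F x ∂sph W = c * ∫ x, Ψ x ∂sph E := by
  obtain ⟨h1, -⟩ := rad E
  obtain ⟨-, cW, hcW, h2⟩ := rad W
  have hvE := rlw_pos E
  have hvU := rlw_pos U
  have hvX := rlw_pos X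
  have hX : 0 < finrank ℝ X := finrank_pos
  have hX' : (0 : ℝ) < finrank ℝ X := by exact_mod_cast hX
  have hU' : (0 : ℝ) < finrank ℝ U := by
    rw [hk]
    positivity
  refine ⟨(finrank ℝ X * (volume (Metric.ball (0 : X) 1)).toReal) *
    (volume (Metric.ball (0 : E) 1)).toReal /
    (cW * (finrank ℝ U * (volume (Metric.ball (0 : U) 1)).toReal)), by positivity, ?_⟩
  intro Ψ F Γ hΨ hF hΓ e1 e2
  have r1 := rle E U V A B hAB hd 0 Ψ Γ hΨ hΓ (fun y z h => by
    rw [pow_zero, one_mul]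
    exact e1 y z h)
  have r2 := rle W X V A' B' hAB' hd' 1 F Γ hF hΓ (fun y z h => by
    rw [pow_one]
    exact e2 y z h)
  have r3 := h1 Ψ hΨ
  have r4 := h2 F hF
  have i1 : finrank ℝ U - 1 + 0 = finrank ℝ X := by omega
  have i2 : finrank ℝ X - 1 + 1 = finrank ℝ X := by omega
  rw [i1] at r1
  rw [i2] at r2
  simp only [pow_zero, one_mul] at r1
  simp only [pow_one] at r2
  rw [r3] at r1
  rw [r4] at r2
  generalize (volume (Metric.ball (0 : E) 1)).toReal = vE at *
  generalize (volume (Metric.ball (0 : U) 1)).toReal = vU at *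
  generalize (volume (Metric.ball (0 : X) 1)).toReal = vX at *
  generalize Jw (finrank ℝ X) Γ = J at *
  generalize ∫ x, F x ∂sph W = L at *
  generalize ∫ x, Ψ x ∂sph E = R at *
  generalize (finrank ℝ X : ℝ) = kX at *
  generalize (finrank ℝ U : ℝ) = kU at *
  rw [div_mul_eq_mul_div, eq_div_iff (by positivity)]
  calc L * (cW * (kU * vU)) = (cW * L) * (kU * vU) := by ring
    _ = (kX * vX * J) * (kU * vU) := by rw [r2]
    _ = kX * vX * (kU * vU * J) := by ring
    _ = kX * vX * (vE * R) := by rw [r1]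
    _ = kX * vX * vE * R := by ring

/-- **RLW** -/
theorem rlw (msu : MsuStmt) (rad : RadStmt) (rle : RleStmt) : RlwStmt := by
  intro E _ _ _ _ _ U hU u0 hu0 hu1
  have hu00 : u0 ≠ 0 := by
    rintro rfl
    rw [norm_zero] at hu1
    exact zero_ne_one hu1
  have hE0 : Nontrivial E := ⟨⟨u0, 0, hu00⟩⟩
  have hUnt : Nontrivial U := finrank_pos_iff (R := ℝ).1 (by omega)
  set W : Submodule ℝ E := (ℝ ∙ u0)ᗮ with hW
  set X : Submodule ℝ U := (ℝ ∙ (⟨u0, hu0⟩ : U))ᗮ with hX
  have hUW : Uᗮ ≤ W := Submodule.orthogonal_le (by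
    rw [Submodule.span_singleton_le_iff_mem]
    exact hu0)
  have hXW : ∀ x : X, ((x : U) : E) ∈ W := by
    intro x
    have h : (x : U) ∈ (ℝ ∙ (⟨u0, hu0⟩ : U))ᗮ := x.2
    have h' := Submodule.mem_orthogonal_singleton_iff_inner_right.1 h
    exact Submodule.mem_orthogonal_singleton_iff_inner_right.2 h'
  have hdU := Submodule.finrank_add_finrank_orthogonal U
  have hdW := Submodule.finrank_add_finrank_orthogonal (ℝ ∙ u0)
  have hdX := Submodule.finrank_add_finrank_orthogonal (ℝ ∙ (⟨u0, hu0⟩ : U))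
  rw [finrank_span_singleton hu00] at hdW
  rw [finrank_span_singleton (by
    intro h
    exact hu00 (congrArg Subtype.val h))] at hdX
  rw [← hW] at hdW
  rw [← hX] at hdX
  have hXnt : Nontrivial X := finrank_pos_iff (R := ℝ).1 (by omega)
  have hWnt : Nontrivial W := finrank_pos_iff (R := ℝ).1 (by omega)
  have hWbot : W ≠ ⊥ := by
    intro h
    rw [Submodule.nontrivial_iff_ne_bot] at hWnt
    exact hWnt h
  let A' : X →ₗᵢ[ℝ] W :=
    { toLinearMap := (U.subtype ∘ₗ X.subtype).codRestrict W (fun x => hXW x)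
      norm_map' := fun x => rfl }
  let B' : Uᗮ →ₗᵢ[ℝ] W :=
    { toLinearMap := Submodule.inclusion hUW
      norm_map' := fun x => rfl }
  have hA' : ∀ x, ((A' x : W) : E) = ((x : U) : E) := fun x => rfl
  have hB' : ∀ x, ((B' x : W) : E) = (x : E) := fun x => rfl
  obtain ⟨c, hc, h⟩ := rlw_core rad rle E U Uᗮ W X U.subtypeₗᵢ Uᗮ.subtypeₗᵢ
    (fun y z => Submodule.inner_right_of_mem_orthogonal y.2 z.2) hdU A' B'
    (fun y z => by
      change ⟪((y : U) : E), (z : E)⟫ = 0
      exact Submodule.inner_right_of_mem_orthogonal (y : U).2 z.2) (by omega) (by omega)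
  refine ⟨c, hc, fun Γ hΓ => ?_⟩
  obtain ⟨C, hC⟩ := hΓ.2
  have hPm : Measurable (fun a : E => U.starProjection a) := U.starProjection.continuous.measurable
  have hpr : ∀ y ∈ U, ∀ z ∈ Uᗮ, U.starProjection (y + z) = y := by
    intro y hy z hz
    rw [map_add, Submodule.starProjection_eq_self_iff.2 hy,
      (Submodule.starProjection_apply_eq_zero_iff (K := U)).2 hz, add_zero]
  have hG : Measurable (fun a : E => Γ (‖U.starProjection a‖, a - U.starProjection a)) :=
    hΓ.1.comp (hPm.norm.prodMk (measurable_id.sub hPm))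
  have hT0 : Tst (fun a : E => Γ (‖U.starProjection a‖, a - U.starProjection a)) :=
    ⟨hG, C, fun x => hC _⟩
  have hT1 : Tst (fun a : E => min ‖U.starProjection a‖ 1 *
      Γ (‖U.starProjection a‖, a - U.starProjection a)) := by
    refine ⟨(hPm.norm.min measurable_const).mul hG, C, fun x => ?_⟩
    have hC0 : 0 ≤ C := (abs_nonneg _).trans (hC (0, 0))
    rw [abs_mul, abs_of_nonneg (le_min (norm_nonneg _) zero_le_one)]
    calc min ‖U.starProjection x‖ 1 * |Γ (‖U.starProjection x‖, x - U.starProjection x)|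
        ≤ 1 * C := mul_le_mul (min_le_right _ _) (hC _) (abs_nonneg _) zero_le_one
      _ = C := one_mul C
  have hT2 : Tst (fun a : W => min ‖U.starProjection (a : E)‖ 1 *
      Γ (‖U.starProjection (a : E)‖, (a : E) - U.starProjection (a : E))) := by
    obtain ⟨hm, D, hD⟩ := hT1
    exact ⟨hm.comp measurable_subtype_coe, D, fun x => hD x⟩
  have hBM : BM (fun p : ℝ × Uᗮ => Γ (p.1, (p.2 : E))) :=
    ⟨hΓ.1.comp (measurable_fst.prodMk (measurable_subtype_coe.comp measurable_snd)), C,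
      fun x => hC _⟩
  have key := h _ _ _ hT0 hT2 hBM (fun y z _ => by
      change Γ (‖U.starProjection ((y : E) + (z : E))‖,
        ((y : E) + (z : E)) - U.starProjection ((y : E) + (z : E))) = Γ (‖y‖, (z : E))
      rw [hpr _ y.2 _ z.2, add_sub_cancel_left, Submodule.coe_norm])
    (fun y z hyz => by
      change min ‖U.starProjection (((y : U) : E) + (z : E))‖ 1 *
        Γ (‖U.starProjection (((y : U) : E) + (z : E))‖,
        (((y : U) : E) + (z : E)) - U.starProjection (((y : U) : E) + (z : E))) =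
        ‖y‖ * Γ (‖y‖, (z : E))
      have hy1 : ‖y‖ ≤ 1 := by
        have h1 := sq_nonneg ‖z‖
        have h2 := norm_nonneg y
        nlinarith
      rw [hpr _ (y : U).2 _ z.2, add_sub_cancel_left]
      change min ‖y‖ 1 * Γ (‖y‖, (z : E)) = ‖y‖ * Γ (‖y‖, (z : E))
      rw [min_eq_left hy1])
  rw [← key, ← msu W hWbot _ hT1]
  unfold mS
  refine integral_congr_ae (Filter.Eventually.of_forall fun x => ?_)
  have hn : ‖nrm (W.starProjection x)‖ ≤ 1 := by
    unfold nrm
    rw [norm_smul, norm_inv, norm_norm]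
    exact inv_mul_le_one
  have hn' : ‖U.starProjection (nrm (W.starProjection x))‖ ≤ 1 :=
    (U.norm_starProjection_apply_le _).trans hn
  change ‖U.starProjection (nrm (W.starProjection x))‖ * _ =
    min ‖U.starProjection (nrm (W.starProjection x))‖ 1 * _
  rw [min_eq_left hn']

end Pool.Agent.REV.H77
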